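import Pool.Agent.W189.RS.Sph

/-!
# Bounds towards Ramanujan for almost all primes, for spherical cusp forms on `PGL(n)`, every `n`

Let `φ` be a spherical cusp form on `PGL_n` over `ℚ`, with Satake parameters `α_{i,p}`, and
`θ_{φ,p} = max_i |log_p |α_{i,p}||`. For `n ≥ 5` the best bound known is
`θ_{φ,p} ≤ 1/2 - 1/(n²+1)` (Luo, Rudnick, Sarnak). We show that for all primes outside a set
with at most `O(x^{1-η})` elements up to `x` one has the bound `θ_{φ,p} < θ`, for every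
`θ > 1/2 - 1/(2⌊n/2⌋) - 1/(2(n²+1))` (for `n = 2, 3`: for every `θ > 0`). More precisely
`#{p ≤ x : θ_{φ,p} ≥ θ} = O(x^{1-2θ+ε} + x^{⌊n/2⌋(1 - 1/(n²+1) - 2θ) + ε})`.

The structure `Level1` lists what is used of `φ`; all of it is classical: the components are unitary, the
Rankin-Selberg series `L(s, φ × φ~) = ∑ λ(m) m^{-s}` converges absolutely for `Re s > 1`
(Jacquet, Shalika), and its twists by primitive Dirichlet characters `χ` of conductor `q = q₁ q₂`, a product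
of two distinct primes, are entire (Jacquet, Piatetski-Shapiro, Shalika, Moeglin, Waldspurger)
and satisfy the convexity bound, of which only `|L(s, φ × φ~ ⊗ χ)| ≤ C_ε (q (1 + |t|))^{n²/2 + ε}` for
`Re s ≥ ε` is used.

Idea: the mass of the nonnegative coefficients `λ(m)` on `k`-th powers, `k ≥ 2`, is small, since it is seen by
all characters of order `k`: if `χ_1, …, χ_R` are characters of order `k` to prime moduli `≤ Q` then
`R² ∑_{l^k ≤ X} λ(l^k)` is at most about `∑_m λ(m) |∑_i χ_i(m)|² e^{-m/X}`, which by the twisted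
`L`-functions is `≤ R X^{1+ε} + R² Q^{n²} X^ε`; so `∑_{l^k ≤ X} λ(l^k) = O(X^{1 - 1/(n²+1) + ε})`.
On the other hand `λ(p^k) ≥ |∑_i α_{i,p}^k|²/k`, and if `max |α_{i,p}| = M` is large then at most
`⌊n/2⌋` of the parameters have modulus `> 1`, hence one of the first `⌊n/2⌋` power sums is at least
`M^k/(2n)`. The same estimate gives Hypothesis H of Rudnick and Sarnak.
-/

set_option autoImplicit false

namespace Pool.Agent.Results.MP_fa98d2_nt.AlmostAllPrimes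

open Pool.Agent.W189.RS

/-- **Almost all primes satisfy a much better bound towards Ramanujan.** -/
theorem result {n : ℕ} {α : ℕ → Fin n → ℂ} (h : Level1 α) :
    (∀ θ : ℝ, 0 < θ → 2 * θ ≤ 1 - 1 / ((n : ℝ) ^ 2 + 1) → ∀ ε : ℝ, 0 < ε → ∃ C : ℝ, ∀ x : ℝ, 1 ≤ x →
      (({p : ℕ | p.Prime ∧ (p : ℝ) ≤ x ∧ θ ≤ theta α p}.ncard : ℕ) : ℝ) ≤
        C * (x ^ (1 - 2 * θ + ε) +
          x ^ (((n / 2 : ℕ) : ℝ) * (1 - 1 / ((n : ℝ) ^ 2 + 1) - 2 * θ) + ε))) ∧
    (∀ θ : ℝ, 0 < θ → ((n / 2 : ℕ) : ℝ) * (1 - 1 / ((n : ℝ) ^ 2 + 1) - 2 * θ) < 1 →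
      ∃ η C : ℝ, 0 < η ∧ ∀ x : ℝ, 1 ≤ x →
        (({p : ℕ | p.Prime ∧ (p : ℝ) ≤ x ∧ θ ≤ theta α p}.ncard : ℕ) : ℝ) ≤ C * x ^ (1 - η)) ∧
    ∀ k : ℕ, 2 ≤ k → Summable fun p : Nat.Primes =>
      ‖∑ i, α p i ^ k‖ ^ 2 * Real.log p ^ 2 / (p : ℝ) ^ k :=
  level1_main h

end Pool.Agent.Results.MP_fa98d2_nt.AlmostAllPrimes
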