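import Pool.Agent.W497.Ram.Mahler

/-!
# The Ramanujan conjecture for spherical cusp forms on `PGL(4)` at almost all primes

Let `φ` be a spherical cusp form on `PGL_4`, `α p` its Satake parameters at the prime `p`,
`M p = ∏_i max(1, |α p i|)` the Mahler measure of its Hecke polynomial and
`θ p = max_i |log |α p i|| / log p`, so that `φ` is tempered at `p` if and only if `θ p = 0`, or `M p = 1`.
Then `p ^ θ p ≤ M p` and `∑_p M(p)² p ^ (-σ)` converges for every `σ > 1`. Hence for every `δ` the number of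
primes `p ≤ x` with `M p ≥ p ^ δ`, in particular of those with `θ p ≥ δ`, is `O(x ^ s)` for every `s ≥ 0` with
`s > 1 - 2 δ`: the Ramanujan conjecture holds up to any positive exponent outside a very thin set of primes.

Proof: the Rankin-Selberg Euler products of `φ` and of its exterior square (Kim) bound the coefficients `e_1`,
`e_2` of the Hecke polynomial, unitarity gives `|e_3| = |e_1|`, `|e_4| = 1`, and Landau's inequality bounds the
Mahler measure by the coefficients.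
-/

set_option autoImplicit false

open scoped ComplexConjugate

namespace Pool.Agent.Results.MP_fa98d2_nt.AlmostAllPrimesFour

/-- The parameters of the exterior square. -/
def wedge (a : Fin 4 → ℂ) : Fin 6 → ℂ :=
  ![a 0 * a 1, a 0 * a 2, a 0 * a 3, a 1 * a 2, a 1 * a 3, a 2 * a 3]

/-- The factor at `p` of the Euler product `L(s, Π × Π~)` if `Π` has the parameters `a`. -/
noncomputable def factor {n : ℕ} (a : Fin n → ℂ) (p : ℕ) (s : ℂ) : ℂ :=
  ∏ i, ∏ j, (1 - a i * conj (a j) * ((p : ℂ) ^ (-s)))⁻¹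

/-- The properties of the Satake parameters `α p i` of a spherical cusp form `φ` on `PGL_4` which are used.
All of them are theorems:
* `unitary`: the local components are unitary, so the family is stable under `z ↦ 1 / conj z`;
* `bound`, `rankinSelberg`: `|α p i| < p ^ (1/2)`, and the Euler product of `L(s, φ × φ~)` is absolutely
  convergent for `s > 1` (Jacquet-Shalika);
* `boundWedge`, `rankinSelbergWedge`: the same for the exterior square of `φ`, which is an isobaric sum of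
  unitary cuspidal representations (Kim). -/
structure IsSpherical (α : ℕ → Fin 4 → ℂ) : Prop where
  prod : ∀ p : ℕ, p.Prime → ∏ i, α p i = 1
  unitary : ∀ p : ℕ, p.Prime → Multiset.map (fun i => (conj (α p i))⁻¹) Finset.univ.val =
    Multiset.map (fun i => α p i) Finset.univ.val
  bound : ∀ p : ℕ, p.Prime → ∀ i, ‖α p i‖ ^ 2 < p
  rankinSelberg : ∀ σ : ℝ, 1 < σ → Summable fun p : Nat.Primes => ‖factor (α p) p σ - 1‖
  boundWedge : ∀ p : ℕ, p.Prime → ∀ i, ‖wedge (α p) i‖ ^ 2 < p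
  rankinSelbergWedge : ∀ σ : ℝ, 1 < σ → Summable fun p : Nat.Primes => ‖factor (wedge (α p)) p σ - 1‖

/-- `θ p = max_i |log |α p i|| / log p`. -/
noncomputable def theta (α : ℕ → Fin 4 → ℂ) (p : ℕ) : ℝ := ⨆ i, |Real.logb p ‖α p i‖|

/-- `M p = ∏_i max(1, |α p i|)`. -/
noncomputable def M (α : ℕ → Fin 4 → ℂ) (p : ℕ) : ℝ := ∏ i, max 1 ‖α p i‖

theorem result (α : ℕ → Fin 4 → ℂ) (h : IsSpherical α) :
    (∀ p : ℕ, p.Prime → (p : ℝ) ^ theta α p ≤ M α p) ∧
    (∀ σ : ℝ, 1 < σ → Summable fun p : Nat.Primes => M α p ^ 2 * ((p : ℕ) : ℝ) ^ (-σ)) ∧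
    (∀ δ s : ℝ, 1 - 2 * δ < s → 0 ≤ s → ∃ C : ℝ, ∀ x : ℝ, 1 ≤ x →
      {p : ℕ | p.Prime ∧ (p : ℝ) ^ δ ≤ M α p ∧ (p : ℝ) ≤ x}.Finite ∧
      (Set.ncard {p : ℕ | p.Prime ∧ (p : ℝ) ^ δ ≤ M α p ∧ (p : ℝ) ≤ x} : ℝ) ≤ C * x ^ s) := by
  have hN : ∀ p : Nat.Primes, (1 : ℝ) < ((p : ℕ) : ℝ) := fun p => by exact_mod_cast p.2.one_lt
  have ha : ∀ (p : ℕ), p.Prime → ∀ (i : Fin 4), α p i ≠ 0 := by
    intro p hp i h0
    have h1 := h.prod p hp
    rw [Finset.prod_eq_zero (Finset.mem_univ i) h0] at h1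
    exact zero_ne_one h1
  have hz : ∀ σ : ℝ, 1 < σ → Summable fun p : Nat.Primes => ((p : ℕ) : ℝ) ^ (-σ) := by
    intro σ hσ
    exact Nat.Primes.summable_rpow.2 (by linarith)
  have hfac : ∀ {n : ℕ} (a : ℕ → Fin n → ℂ) (σ : ℝ),
      (Summable fun p : Nat.Primes => ‖factor (a p) p σ - 1‖) →
      Summable fun p : Nat.Primes => ‖W497.Ram.rsFactor (a p) (((((p : ℕ) : ℝ)) ^ (-σ) : ℝ) : ℂ) - 1‖ := by
    intro n a σ hs
    refine hs.congr fun p => ?_
    unfold factor W497.Ram.rsFactor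
    rw [Complex.ofReal_cpow (by positivity)]
    push_cast
    rfl
  have key : ∀ σ : ℝ, 1 < σ → Summable fun p : Nat.Primes => M α p ^ 2 * ((p : ℕ) : ℝ) ^ (-σ) := by
    intro σ hσ
    exact W497.Ram.summable_mah4 (V := Nat.Primes) (q := fun p => ((p : ℕ) : ℝ)) (a := fun p => α p)
      hN hz (fun p => ha p p.2) (fun p => h.unitary p p.2) (fun p i => h.bound p p.2 i)
      (fun p i => h.boundWedge p p.2 i) (fun σ' hσ' => hfac _ _ (h.rankinSelberg σ' hσ'))
      (fun σ' hσ' => hfac (fun p => wedge (α p)) _ (h.rankinSelbergWedge σ' hσ')) hσ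
  refine ⟨fun p hp => ?_, key, fun δ s hs hs0 => ?_⟩
  · exact W497.Ram.rpow_theta_le_mah (by exact_mod_cast hp.one_lt) (ha p hp) (h.unitary p hp)
  have h1 : Summable fun w : {w : Nat.Primes // ((w : ℕ) : ℝ) ^ δ ≤ M α w} =>
      ((w.1 : ℕ) : ℝ) ^ (-s) := by
    refine Summable.of_nonneg_of_le (fun w => by positivity) (fun w => ?_)
      ((key (s + 2 * δ) (by linarith)).comp_injective
        (Subtype.val_injective (p := fun w : Nat.Primes => ((w : ℕ) : ℝ) ^ δ ≤ M α w)))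
    have hp0 : (0 : ℝ) < ((w.1 : ℕ) : ℝ) := by linarith [hN w.1]
    calc ((w.1 : ℕ) : ℝ) ^ (-s) = (((w.1 : ℕ) : ℝ) ^ δ) ^ 2 * ((w.1 : ℕ) : ℝ) ^ (-(s + 2 * δ)) := by
          rw [← Real.rpow_natCast, ← Real.rpow_mul hp0.le, ← Real.rpow_add hp0]
          congr 1
          push_cast
          ring
      _ ≤ M α w.1 ^ 2 * ((w.1 : ℕ) : ℝ) ^ (-(s + 2 * δ)) :=
          mul_le_mul_of_nonneg_right (pow_le_pow_left₀ (by positivity) w.2 2) (by positivity)
  obtain ⟨C, hC⟩ := W497.Ram.count_bad (V := {w : Nat.Primes // ((w : ℕ) : ℝ) ^ δ ≤ M α w})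
    (q := fun w => ((w.1 : ℕ) : ℝ)) (fun w => hN w.1) hs0 h1
  refine ⟨C, fun x hx => ?_⟩
  obtain ⟨h2, h3⟩ := hC x hx
  set f : {w : Nat.Primes // ((w : ℕ) : ℝ) ^ δ ≤ M α w} → ℕ := fun w => (w.1 : ℕ) with hf
  have hfinj : Function.Injective f := fun a b hab => Subtype.ext (Subtype.ext hab)
  have himg : {p : ℕ | p.Prime ∧ (p : ℝ) ^ δ ≤ M α p ∧ (p : ℝ) ≤ x} =
      f '' {w | ((w.1 : ℕ) : ℝ) ≤ x} := by
    ext p
    constructor
    · rintro ⟨h4, h5, h6⟩
      exact ⟨⟨⟨p, h4⟩, h5⟩, h6, rfl⟩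
    · rintro ⟨w, hw, rfl⟩
      exact ⟨w.1.2, w.2, hw⟩
  rw [himg]
  refine ⟨h2.image f, ?_⟩
  rw [Set.ncard_image_of_injective _ hfinj]
  exact h3

end Pool.Agent.Results.MP_fa98d2_nt.AlmostAllPrimesFour
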